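import Pool.Agent.MP_2fa7ec_pr.Mg.Main

/-!
Q2: for every irreducible BRW on a finite or countably infinite set `X`, the set `F_G` of fixed
points of the generating function in `[0,1]^X` has at most two elements or has the cardinality of
the continuum.  In particular it is finite or uncountable.
-/

theorem Pool.Agent.Results.MP_2fa7ec_pr.FixedPointDichotomy.result
    (X : Type) [Countable X] (μ : X → PMF (X →₀ ℕ))
    (hirr : Pool.Agent.MP_2fa7ec_pr.IsIrreducibleBRW μ) :
    (Pool.Agent.MP_2fa7ec_pr.fixedSet μ).encard ≤ 2 ∨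
      Cardinal.mk (Pool.Agent.MP_2fa7ec_pr.fixedSet μ) = Cardinal.continuum :=
  Pool.Agent.MP_2fa7ec_pr.dichotomy μ hirr
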